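import Pool.Agent.Helper25.LS.Defs

set_option autoImplicit false

namespace Pool.Agent.Helper31.LS

open Pool.Agent.Helper25.LS

theorem no : S_NO := by
  intro Y _ _ E _ δ hδ
  classical
  haveI : ProperSpace E := FiniteDimensional.proper ℂ E
  have hc : IsCompact (Metric.sphere (0 : E) 1) := isCompact_sphere 0 1
  have hdual : ∀ w : E, ∃ g : Y →L[ℂ] ℂ, ‖g‖ ≤ 1 ∧ g (w : Y) = ((‖w‖ : ℝ) : ℂ) := by
    intro w
    obtain ⟨g, hg1, hg2⟩ := exists_dual_vector'' ℂ (w : Y)
    exact ⟨g, hg1, by rw [hg2]; simp⟩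
  choose g hg1 hg2 using hdual
  obtain ⟨t, ht, hcov⟩ := hc.elim_nhds_subcover (fun w : E => {w' : E | 1 - δ < ‖g w (w' : Y)‖}) (by
    intro w hw
    apply IsOpen.mem_nhds
    · exact isOpen_lt continuous_const (by fun_prop)
    · have h1 : ‖w‖ = 1 := by simpa using hw
      show 1 - δ < ‖g w (w : Y)‖
      rw [hg2, h1]
      simp
      linarith)
  refine ⟨t.card + 1, Fin.cons 0 (fun i => g (t.equivFin.symm i : E)), ?_, ?_⟩
  · intro l
    refine Fin.cases ?_ ?_ l
    · simp
    · intro i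
      simpa using hg1 _
  · intro w hw
    by_cases h0 : w = 0
    · exact ⟨0, by simp [h0]⟩
    · have hn : 0 < ‖w‖ := norm_pos_iff.mpr h0
      set u : E := ((‖w‖ : ℂ)⁻¹) • (⟨w, hw⟩ : E) with hu
      have hun : ‖u‖ = 1 := by
        rw [hu, norm_smul]
        simp only [norm_inv, Complex.norm_real, norm_norm, Submodule.coe_norm]
        field_simp
      have hus : u ∈ Metric.sphere (0 : E) 1 := by simp [hun]
      have := hcov hus
      simp only [Set.mem_iUnion, Set.mem_setOf_eq, exists_prop] at this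
      obtain ⟨v, hv, hlt⟩ := this
      refine ⟨(t.equivFin ⟨v, hv⟩).succ, ?_⟩
      simp only [Fin.cons_succ, Equiv.symm_apply_apply]
      have hw' : w = ((‖w‖ : ℝ) : ℂ) • (u : Y) := by
        rw [hu]
        simp only [Submodule.coe_smul, smul_smul]
        rw [mul_inv_cancel₀ (by exact_mod_cast hn.ne'), one_smul]
      have h2 : ‖g v w‖ = ‖w‖ * ‖g v (u : Y)‖ := by
        conv_lhs => rw [hw']
        rw [map_smul, norm_smul]
        simp
      rw [h2]
      nlinarith

end Pool.Agent.Helper31.LS
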